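import Pool.Agent.Y885.WI1
import Pool.Agent.Y885.TU1
import Pool.Agent.W93.DC4

set_option autoImplicit false

/-! Thin sets of frequencies: preimages under multiplication, and strings with few non-extremal positions. -/

namespace Pool.Agent.Q26.TA
open Finset
open Pool.Agent.W93.DG
open Pool.Agent.W93.AU (Law)
open Pool.Agent.Y885
open Pool.Agent.H807R2.Dav

lemma thin_monoQ {b E Q Q' k m : ℕ} {S : Finset ℕ} (h : Thin b E Q k m S) (hQ : Q ≤ Q') : Thin b E Q' k m S :=
  ⟨h.lt, fun i hi => (h.bot i hi).trans (Nat.mul_le_mul_right _ hQ),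
    fun j x hj => (h.top j x hj).trans (Nat.mul_le_mul_right _ hQ), h.all.trans (Nat.mul_le_mul_right _ hQ)⟩

/-- the preimage of a thin set under the multiplication by `q` -/
theorem thin_mul (b E Q k m q : ℕ) (hb : 2 ≤ b) (hq : 1 ≤ q) (S : Finset ℕ) (hS : Thin b E Q k m S) :
    Thin b E (2 * q * Q) k m ((range (b ^ (k + 1))).filter (fun t => (q * t) % b ^ (k + 1) ∈ S)) := by
  classical
  obtain ⟨h1, h2, h3, h4⟩ := hS
  obtain ⟨M, hM⟩ : ∃ M, M = b ^ (k + 1) := ⟨_, rfl⟩
  rw [← hM]
  have hM0 : 0 < M := by rw [hM]; exact Nat.pow_pos (by omega)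
  have hj : ∀ t, t < M → (q * t) / M < q := by
    intro t ht
    rw [Nat.div_lt_iff_lt_mul hM0]
    exact Nat.mul_lt_mul_of_pos_left ht hq
  refine ⟨fun t ht => by rw [← hM]; exact mem_range.1 (mem_filter.1 ht).1, ?_, ?_, ?_⟩
  · intro i hi
    obtain ⟨c, hc⟩ : ∃ c, c = b ^ (k - 2 * i) := ⟨_, rfl⟩
    have hc0 : 0 < c := by rw [hc]; exact Nat.pow_pos (by omega)
    have hMc : M = c * b ^ (2 * i + 1) := by
      rw [hM, hc, ← pow_add]
      congr 1
      omega
    have h2' := h2 i hi
    rw [← hc] at h2' ⊢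
    have hcard : (((range M).filter (fun t => (q * t) % M ∈ S)).image (fun t => t / c)).card ≤
        (S.image (fun t => t / c)).card * q := by
      have hsub : ((range M).filter (fun t => (q * t) % M ∈ S)).image (fun t => t / c) ⊆
          ((S.image (fun t => t / c)) ×ˢ range q).image (fun x => (x.1 + b ^ (2 * i + 1) * x.2) / q) := by
        intro y hy
        rw [mem_image] at hy
        obtain ⟨t, ht, rfl⟩ := hy
        rw [mem_filter, mem_range] at ht
        rw [mem_image]
        refine ⟨((q * t) % M / c, (q * t) / M), mem_product.2 ⟨mem_image_of_mem _ ht.2, mem_range.2 (hj t ht.1)⟩, ?_⟩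
        have e1 : (q * t) % M / c + b ^ (2 * i + 1) * (q * t / M) = q * t / c := by
          have e0 := Nat.mod_add_div (q * t) M
          obtain ⟨r, hr⟩ : ∃ r, r = (q * t) % M := ⟨_, rfl⟩
          obtain ⟨w, hw⟩ : ∃ w, w = q * t / M := ⟨_, rfl⟩
          rw [← hr, ← hw] at e0 ⊢
          rw [← e0, hMc, mul_assoc, Nat.add_mul_div_left _ _ hc0]
        simp only
        rw [e1, Nat.div_div_eq_div_mul, mul_comm c q, ← Nat.div_div_eq_div_mul, Nat.mul_div_cancel_left t (by omega)]
      refine (card_le_card hsub).trans (card_image_le.trans ?_)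
      rw [card_product, card_range]
    calc _ ≤ ((S.image (fun t => t / c)).card * q) * b ^ (i / E) := Nat.mul_le_mul_right _ hcard
      _ = q * ((S.image (fun t => t / c)).card * b ^ (i / E)) := by ring
      _ ≤ q * (Q * b ^ i) := Nat.mul_le_mul_left _ h2'
      _ ≤ 2 * (q * (Q * b ^ i)) := by omega
      _ = _ := by ring
  · intro j x hjk
    have hbj : b ^ j ≤ M := by rw [hM]; exact Nat.pow_le_pow_right (by omega) (by omega)
    have hbj0 : 0 < b ^ j := Nat.pow_pos (by omega)
    obtain ⟨A, hA⟩ : ∃ A, A = ((range M).filter (fun t => (q * t) % M ∈ S)).filter (fun t => x ≤ t ∧ t < x + b ^ j) := ⟨_, rfl⟩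
    rw [← hA]
    have hmaps : ∀ t ∈ A, (q * t - q * x) / b ^ j ∈ range q := by
      intro t ht
      rw [hA, mem_filter] at ht
      rw [mem_range, Nat.div_lt_iff_lt_mul hbj0, ← Nat.mul_sub]
      exact Nat.mul_lt_mul_of_pos_left (by omega) hq
    rw [card_eq_sum_card_fiberwise hmaps, sum_mul]
    have hu : ∀ u ∈ range q, ((A.filter (fun t => (q * t - q * x) / b ^ j = u)).card) * b ^ (j / E) ≤ 2 * (Q * b ^ j) := by
      intro u _
      obtain ⟨z, hz⟩ : ∃ z, z = q * x + u * b ^ j := ⟨_, rfl⟩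
      obtain ⟨y, hy⟩ : ∃ y, y = z % M := ⟨_, rfl⟩
      have hrange : ∀ t ∈ A.filter (fun t => (q * t - q * x) / b ^ j = u), z ≤ q * t ∧ q * t < z + b ^ j ∧ (q * t) % M ∈ S := by
        intro t ht
        rw [mem_filter, hA, mem_filter, mem_filter] at ht
        obtain ⟨⟨⟨_, hs⟩, hx1, hx2⟩, hdiv⟩ := ht
        have e1 : q * x ≤ q * t := Nat.mul_le_mul_left _ hx1
        have e2 := Nat.div_add_mod (q * t - q * x) (b ^ j)
        have e3 := Nat.mod_lt (q * t - q * x) hbj0
        rw [hdiv] at e2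
        rw [mul_comm (b ^ j) u] at e2
        obtain ⟨ub, hub⟩ : ∃ ub, ub = u * b ^ j := ⟨_, rfl⟩
        obtain ⟨md, hmd⟩ : ∃ md, md = (q * t - q * x) % b ^ j := ⟨_, rfl⟩
        rw [← hub, ← hmd] at e2
        rw [← hmd] at e3
        rw [← hub] at hz
        refine ⟨by omega, by omega, hs⟩
      have hinj : Set.InjOn (fun t => (q * t) % M) (A.filter (fun t => (q * t - q * x) / b ^ j = u) : Set ℕ) := by
        intro t ht t' ht' heq
        obtain ⟨a1, a2, _⟩ := hrange t ht
        obtain ⟨a3, a4, _⟩ := hrange t' ht'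
        have e1 : q * t = q * t' := by
          apply Nat.ModEq.eq_of_abs_lt (m := M) heq
          rw [abs_lt]
          constructor <;> push_cast <;> push_cast at a1 a2 a3 a4 <;> omega
        exact Nat.eq_of_mul_eq_mul_left (by omega) e1
      have hsub : (A.filter (fun t => (q * t - q * x) / b ^ j = u)).image (fun t => (q * t) % M) ⊆
          S.filter (fun s => y ≤ s ∧ s < y + b ^ j) ∪ S.filter (fun s => 0 ≤ s ∧ s < 0 + b ^ j) := by
        intro s hs
        rw [mem_image] at hs
        obtain ⟨t, ht, rfl⟩ := hs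
        obtain ⟨a1, a2, a3⟩ := hrange t ht
        obtain ⟨d, hd⟩ : ∃ d, q * t = z + d := ⟨q * t - z, by omega⟩
        have hy1 : y < M := by rw [hy]; exact Nat.mod_lt _ hM0
        have e1 : (q * t) % M = (y + d) % M := by
          rw [hd, hy, Nat.add_mod z d, Nat.add_mod (z % M) d, Nat.mod_mod]
        rw [mem_union, mem_filter, mem_filter]
        rcases Nat.lt_or_ge (y + d) M with h | h
        · left
          rw [Nat.mod_eq_of_lt h] at e1
          exact ⟨a3, by omega, by omega⟩
        · right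
          have e2 : (y + d) % M = y + d - M := by
            rw [Nat.mod_eq_sub_mod h, Nat.mod_eq_of_lt (by omega)]
          exact ⟨a3, by omega, by omega⟩
      have hc1 : (A.filter (fun t => (q * t - q * x) / b ^ j = u)).card ≤
          (S.filter (fun s => y ≤ s ∧ s < y + b ^ j)).card + (S.filter (fun s => 0 ≤ s ∧ s < 0 + b ^ j)).card := by
        rw [← card_image_of_injOn hinj]
        exact (card_le_card hsub).trans (card_union_le _ _)
      have e1 := h3 j y hjk
      have e2 := h3 j 0 hjk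
      calc _ ≤ ((S.filter (fun s => y ≤ s ∧ s < y + b ^ j)).card + (S.filter (fun s => 0 ≤ s ∧ s < 0 + b ^ j)).card) * b ^ (j / E) :=
            Nat.mul_le_mul_right _ hc1
        _ = (S.filter (fun s => y ≤ s ∧ s < y + b ^ j)).card * b ^ (j / E) + (S.filter (fun s => 0 ≤ s ∧ s < 0 + b ^ j)).card * b ^ (j / E) :=
            add_mul _ _ _
        _ ≤ Q * b ^ j + Q * b ^ j := add_le_add e1 e2
        _ = _ := by ring
    refine (sum_le_sum hu).trans (le_of_eq ?_)
    rw [sum_const, card_range, smul_eq_mul]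
    ring
  · have hinj : Set.InjOn (fun t => ((q * t) % M, (q * t) / M)) ((range M).filter (fun t => (q * t) % M ∈ S) : Set ℕ) := by
      intro t _ t' _ heq
      simp only [Prod.mk.injEq] at heq
      have e1 := Nat.mod_add_div (q * t) M
      have e2 := Nat.mod_add_div (q * t') M
      rw [heq.1, heq.2, e2] at e1
      exact (Nat.eq_of_mul_eq_mul_left (by omega) e1).symm
    have hsub : ((range M).filter (fun t => (q * t) % M ∈ S)).image (fun t => ((q * t) % M, (q * t) / M)) ⊆ S ×ˢ range q := by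
      intro s hs
      rw [mem_image] at hs
      obtain ⟨t, ht, rfl⟩ := hs
      rw [mem_filter, mem_range] at ht
      exact mem_product.2 ⟨ht.2, mem_range.2 (hj t ht.1)⟩
    have hc : ((range M).filter (fun t => (q * t) % M ∈ S)).card ≤ S.card * q := by
      rw [← card_image_of_injOn hinj]
      refine (card_le_card hsub).trans ?_
      rw [card_product, card_range]
    calc _ ≤ (S.card * q) * b ^ (k / E) := Nat.mul_le_mul_right _ hc
      _ = q * (S.card * b ^ (k / E)) := by ring
      _ ≤ q * (Q * b ^ m) := Nat.mul_le_mul_left _ h4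
      _ ≤ 2 * (q * (Q * b ^ m)) := by omega
      _ = _ := by ring

lemma ne_mono (b i w i' w' r : ℕ) (h1 : i' ≤ i) (h2 : i + w ≤ i' + w') : ne b i w r ≤ ne b i' w' r := by
  unfold ne
  apply card_le_card
  apply filter_subset_filter
  intro j hj
  rw [mem_Ico] at hj ⊢
  omega

/-- the number of strings with few non-extremal positions -/
lemma us_le (b D : ℕ) (hb : 2 ≤ b) : ∃ c K₀ : ℕ, ∀ K : ℕ, K₀ ≤ K → ∀ l : ℕ,
    (US b l (D * (Nat.log b K + 1))).card ≤ K ^ c * b ^ (l / 8) := by
  obtain ⟨R, hR, hent⟩ := ent b hb 8 (by norm_num)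
  refine ⟨2 * (D * R) + 2, b + 1, fun K hK l => ?_⟩
  obtain ⟨T, hT⟩ : ∃ T, T = D * (Nat.log b K + 1) := ⟨_, rfl⟩
  rw [← hT]
  have hK0 : K ≠ 0 := by omega
  have hbT : b ^ (T * R) ≤ K ^ (2 * (D * R)) := by
    rw [hT, show D * (Nat.log b K + 1) * R = (Nat.log b K + 1) * (D * R) by ring, pow_mul b, pow_mul K]
    apply Nat.pow_le_pow_left
    rw [pow_succ, sq]
    exact Nat.mul_le_mul (Nat.pow_log_le_self b hK0) (by omega)
  have h1 : (US b l T).card ≤ b ^ (l / 8 + 2 + T * R) := by
    rcases Nat.lt_or_ge (2 * l) (T * R) with h | h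
    · have e1 : (US b l T).card ≤ b ^ (l + 1) := by
        unfold US
        refine (card_filter_le _ _).trans ?_
        rw [card_range]
      exact e1.trans (Nat.pow_le_pow_right (by omega) (by omega))
    · exact (hent l T h).trans (Nat.pow_le_pow_right (by omega) (by omega))
  calc _ ≤ b ^ (l / 8 + 2 + T * R) := h1
    _ = b ^ 2 * b ^ (T * R) * b ^ (l / 8) := by rw [pow_add, pow_add]; ring
    _ ≤ K ^ 2 * K ^ (2 * (D * R)) * b ^ (l / 8) :=
        Nat.mul_le_mul_right _ (Nat.mul_le_mul (Nat.pow_le_pow_left (by omega) 2) hbT)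
    _ = _ := by rw [← pow_add]; congr 2; ring

/-- the frequencies with few non-extremal positions form a thin set -/
theorem thin_ext (b D : ℕ) (hb : 2 ≤ b) : ∃ c K₀ : ℕ, ∀ K : ℕ, K₀ ≤ K →
    Thin b 20 (K ^ c) K (2 * K / 5) ((range (b ^ (K + 1))).filter (fun t => ne b 0 K t < D * (Nat.log b K + 1))) := by
  classical
  obtain ⟨c, K₀, h⟩ := us_le b D hb
  refine ⟨c + 1, K₀ + 2, fun K hK => ?_⟩
  have h := h K (by omega)
  obtain ⟨T, hT⟩ : ∃ T, T = D * (Nat.log b K + 1) := ⟨_, rfl⟩
  rw [← hT] at h ⊢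
  have hKc : 2 * K ^ c ≤ K ^ (c + 1) := by
    rw [pow_succ, mul_comm]
    exact Nat.mul_le_mul_left _ (by omega)
  have hbp : ∀ i j : ℕ, i ≤ j → b ^ i ≤ b ^ j := fun i j hij => Nat.pow_le_pow_right (by omega) hij
  refine ⟨fun t ht => mem_range.1 (mem_filter.1 ht).1, ?_, ?_, ?_⟩
  · intro i hi
    have hsub : ((range (b ^ (K + 1))).filter (fun t => ne b 0 K t < T)).image (fun t => t / b ^ (K - 2 * i)) ⊆ US b (2 * i) T := by
      intro y hy
      rw [mem_image] at hy
      obtain ⟨t, ht, rfl⟩ := hy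
      rw [mem_filter, mem_range] at ht
      unfold US
      rw [mem_filter, mem_range]
      constructor
      · apply Nat.div_lt_of_lt_mul
        rw [← pow_add]
        have : K - 2 * i + (2 * i + 1) = K + 1 := by omega
        rw [this]
        exact ht.1
      · rw [← ne_shift b (K - 2 * i) (2 * i) t]
        exact (ne_mono b _ _ 0 K t (by omega) (by omega)).trans ht.2.le
    calc _ ≤ (US b (2 * i) T).card * b ^ (i / 20) := Nat.mul_le_mul_right _ (card_le_card hsub)
      _ ≤ (K ^ c * b ^ (2 * i / 8)) * b ^ (i / 20) := Nat.mul_le_mul_right _ (h (2 * i))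
      _ = K ^ c * b ^ (2 * i / 8 + i / 20) := by rw [pow_add, mul_assoc]
      _ ≤ K ^ (c + 1) * b ^ i := Nat.mul_le_mul (by omega) (hbp _ _ (by omega))
  · intro j x hjk
    have hbj0 : 0 < b ^ j := Nat.pow_pos (by omega)
    rcases Nat.eq_zero_or_pos j with rfl | hj0
    · have h1 : (((range (b ^ (K + 1))).filter (fun t => ne b 0 K t < T)).filter (fun t => x ≤ t ∧ t < x + b ^ 0)).card ≤ 1 := by
        rw [card_le_one]
        intro t ht t' ht'
        rw [mem_filter] at ht ht'
        rw [pow_zero] at ht ht'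
        omega
      have h2 : 1 ≤ K ^ (c + 1) := Nat.pow_pos (by omega)
      simpa using h1.trans h2
    · have hcell : ∀ y : ℕ, (((range (b ^ (K + 1))).filter (fun t => ne b 0 K t < T)).filter (fun t => t / b ^ j = y)).card ≤
          K ^ c * b ^ ((j - 1) / 8) := by
        intro y
        refine le_trans ?_ (h (j - 1))
        apply card_le_card_of_injOn (fun t => t % b ^ j)
        · intro t ht
          rw [mem_coe, mem_filter, mem_filter, mem_range] at ht
          unfold US
          rw [mem_coe, mem_filter, mem_range]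
          have e1 : j - 1 + 1 = j := by omega
          have e2 := ne_mod b (j - 1) t
          rw [e1] at e2 ⊢
          refine ⟨Nat.mod_lt _ hbj0, ?_⟩
          rw [e2]
          exact (ne_mono b 0 (j - 1) 0 K t le_rfl (by omega)).trans ht.1.2.le
        · intro t ht t' ht' heq
          rw [mem_coe, mem_filter] at ht ht'
          have e1 := Nat.div_add_mod t (b ^ j)
          have e2 := Nat.div_add_mod t' (b ^ j)
          simp only at heq
          rw [ht.2, heq] at e1
          rw [ht'.2] at e2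
          omega
      have hsub : ((range (b ^ (K + 1))).filter (fun t => ne b 0 K t < T)).filter (fun t => x ≤ t ∧ t < x + b ^ j) ⊆
          ((range (b ^ (K + 1))).filter (fun t => ne b 0 K t < T)).filter (fun t => t / b ^ j = x / b ^ j) ∪
          ((range (b ^ (K + 1))).filter (fun t => ne b 0 K t < T)).filter (fun t => t / b ^ j = x / b ^ j + 1) := by
        intro t ht
        rw [mem_filter] at ht
        have e1 : x / b ^ j ≤ t / b ^ j := Nat.div_le_div_right ht.2.1
        have e2 : t / b ^ j ≤ x / b ^ j + 1 := by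
          calc t / b ^ j ≤ (x + b ^ j) / b ^ j := Nat.div_le_div_right ht.2.2.le
            _ = x / b ^ j + 1 := Nat.add_div_right x hbj0
        rcases Nat.eq_or_lt_of_le e1 with h' | h'
        · exact mem_union_left _ (mem_filter.2 ⟨ht.1, h'.symm⟩)
        · exact mem_union_right _ (mem_filter.2 ⟨ht.1, by omega⟩)
      calc _ ≤ (K ^ c * b ^ ((j - 1) / 8) + K ^ c * b ^ ((j - 1) / 8)) * b ^ (j / 20) :=
            Nat.mul_le_mul_right _ ((card_le_card hsub).trans ((card_union_le _ _).trans (add_le_add (hcell _) (hcell _))))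
        _ = 2 * K ^ c * b ^ ((j - 1) / 8 + j / 20) := by rw [pow_add]; ring
        _ ≤ K ^ (c + 1) * b ^ j := Nat.mul_le_mul hKc (hbp _ _ (by omega))
  · have hsub : ((range (b ^ (K + 1))).filter (fun t => ne b 0 K t < T)) ⊆ US b K T := by
      intro t ht
      rw [mem_filter] at ht
      unfold US
      rw [mem_filter]
      exact ⟨ht.1, ht.2.le⟩
    calc _ ≤ (K ^ c * b ^ (K / 8)) * b ^ (K / 20) := Nat.mul_le_mul_right _ ((card_le_card hsub).trans (h K))
      _ = K ^ c * b ^ (K / 8 + K / 20) := by rw [pow_add, mul_assoc]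
      _ ≤ K ^ (c + 1) * b ^ (2 * K / 5) := Nat.mul_le_mul (by omega) (hbp _ _ (by omega))

/-- all multiples of an automatic random integer have a thin large spectrum -/
theorem law_tlaw (b D κ : ℕ) (hb : 2 ≤ b) : ∃ c K₀ : ℕ, ∀ K : ℕ, K₀ ≤ K → ∀ (F V h : ℕ), 1 ≤ F → 1 ≤ h → 2 * (F * h) ≤ K ^ κ →
    ∀ (ι : Type) (Ω : Finset ι) (p : ι → ℝ) (Y : ι → ℤ), Law b F D V K Ω p Y →
    TLaw b 20 c V K Ω p (fun ω => (h : ℤ) * Y ω) := by
  obtain ⟨c, K₀, hthin⟩ := thin_ext b D hb
  refine ⟨κ + c, K₀, fun K hK F V h hF hh hFh ι Ω p Y hlaw => ⟨hlaw.nonneg, hlaw.le_one, ?_⟩⟩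
  have h1 := thin_mul b 20 (K ^ c) K (2 * K / 5) (F * h) hb (Nat.mul_pos hF hh) _ (hthin K hK)
  have h2 : 2 * (F * h) * K ^ c ≤ K ^ (κ + c) := by
    rw [pow_add]
    exact Nat.mul_le_mul_right _ hFh
  refine (thin_monoQ h1 h2).subset ?_
  intro t ht
  unfold Spec at ht
  rw [mem_filter] at ht
  have hM0 : 0 < b ^ (K + 1) := Nat.pow_pos (by omega)
  refine mem_filter.2 ⟨ht.1, mem_filter.2 ⟨mem_range.2 (Nat.mod_lt _ hM0), ?_⟩⟩
  by_contra hcon
  push Not at hcon
  have h3 := hlaw.char (h * t) (by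
    rw [← mul_assoc]
    exact hcon)
  have h4 : ∑ ω ∈ Ω, ((p ω : ℝ) : ℂ) * ee ((((h : ℤ) * Y ω : ℤ) : ℝ) * ((t : ℝ) / ((b ^ (K + 1) : ℕ) : ℝ))) =
      ∑ ω ∈ Ω, ((p ω : ℝ) : ℂ) * ee ((Y ω : ℝ) * (((h * t : ℕ) : ℝ) / ((b ^ (K + 1) : ℕ) : ℝ))) := by
    apply sum_congr rfl
    intro ω _
    congr 2
    push_cast
    ring
  rw [h4] at ht
  exact absurd ht.2 (not_lt.2 h3)

end Pool.Agent.Q26.TA
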