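import Pool.Agent.W93.AU14
import Pool.Agent.Q26.TA.TA1

set_option autoImplicit false

/-! Automata: the law of the accepted integers with many additional digits. -/

namespace Pool.Agent.Q26.TA
open Finset
open Pool.Agent.H807R2.Dav
open Pool.Agent.W93.RD
open Pool.Agent.W93.DG
open Pool.Agent.W93.AU

variable {σ : Type}

lemma char_boundW (B : ℕ) (hB : 2 ≤ B) (δ : σ → ℕ → σ) (F : σ → Prop) (s0 : σ) (Rich : σ → Prop) (κ : ℕ) (C ρ : ℝ) (k : ℕ)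
    (hG : Gro B δ F s0 Rich κ C ρ k) (hρ : 1 < ρ) (hR : ∀ s, Rich s → ∃ u v, u < v ∧ v < B ∧ δ s u = s ∧ δ s v = s)
    (κκ : ℤ) (W V : ℕ) : ∃ D m₀ : ℕ, ∀ m : ℕ, m₀ ≤ m → ∀ e K : ℕ, K = m + e → e ≤ W * (Nat.log B K + 1) → ∀ t,
    D * (Nat.log B K + 1) ≤ ne B 0 K ((B.factorial * κκ.natAbs * t) % B ^ (K + 1)) →
    ‖Tc B δ F m s0 ((κκ : ℝ) * ((t : ℝ) / ((B ^ (K + 1) : ℕ) : ℝ)))‖ ≤ 1 / (K : ℝ) ^ V * Ac B δ F m s0 := by
  have hB0 : (0 : ℝ) < B := by exact_mod_cast (by omega : 0 < B)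
  have hB2 : (2 : ℝ) ≤ B := by exact_mod_cast hB
  have hF1 : (1 : ℝ) ≤ (B.factorial : ℝ) := by exact_mod_cast B.factorial_pos
  have hC1 := hG.C1
  have hC0 : 0 < C := by linarith
  obtain ⟨c, hc⟩ : ∃ c, c = 4 * (1 / ((B : ℝ) ^ 2 * (B.factorial : ℝ))) ^ 2 := ⟨_, rfl⟩
  have hc0 : 0 < c := by rw [hc]; positivity
  have hc1 : c ≤ 1 / 4 := by
    rw [hc]
    have e1 : (4 : ℝ) ≤ (B : ℝ) ^ 2 * (B.factorial : ℝ) := by nlinarith
    have e2 : 1 / ((B : ℝ) ^ 2 * (B.factorial : ℝ)) ≤ 1 / 4 := one_div_le_one_div_of_le (by norm_num) e1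
    have e3 : 0 ≤ 1 / ((B : ℝ) ^ 2 * (B.factorial : ℝ)) := by positivity
    nlinarith
  obtain ⟨q, hq⟩ : ∃ q, q = 1 - c / C := ⟨_, rfl⟩
  have hcC : c / C ≤ 1 / 4 := (div_le_self hc0.le hC1).trans hc1
  have hcC0 : 0 < c / C := by positivity
  have hq0 : 0 < q := by rw [hq]; linarith
  have hq1 : q < 1 := by rw [hq]; linarith
  obtain ⟨l, hl⟩ : ∃ l, l = max q (1 / ρ) := ⟨_, rfl⟩
  have hρ0 : 0 < ρ := by linarith
  have hl1 : l < 1 := by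
    rw [hl]
    apply max_lt hq1
    rw [div_lt_one hρ0]; exact hρ
  have hlq : q ≤ l := by rw [hl]; exact le_max_left _ _
  have hlρ : 1 / ρ ≤ l := by rw [hl]; exact le_max_right _ _
  have hl0 : 0 < l := lt_of_lt_of_le hq0 hlq
  obtain ⟨D', hD'⟩ := exists_pow_lt_of_lt_one (show 0 < (1 / (B : ℝ)) ^ (V + (k + 1)) by positivity) hl1
  obtain ⟨k1, hk1⟩ := poly_le (C ^ 2) (by positivity) k
  refine ⟨2 * D' + W + κ, k1 + κ + 1, fun m hK e K hm he t ht => ?_⟩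
  obtain ⟨θ, hθ⟩ : ∃ θ, θ = (κκ : ℝ) * ((t : ℝ) / ((B ^ (K + 1) : ℕ) : ℝ)) := ⟨_, rfl⟩
  obtain ⟨Lg, hLg⟩ : ∃ Lg, Lg = Nat.log B K + 1 := ⟨_, rfl⟩
  have hLg1 : 1 ≤ Lg := by omega
  have hgc := gc_ge B κκ t K m e κ hB hm
  rw [← hc, ← hθ] at hgc
  rw [← hLg] at ht
  obtain ⟨r, hr⟩ : ∃ r, r = D' * Lg := ⟨_, rfl⟩
  have hgc2 : 2 * r ≤ gc B (Gd B c) κ m θ := by
    have e0 : κ * 1 ≤ κ * Lg := Nat.mul_le_mul_left _ hLg1
    have e1 : e ≤ W * Lg := by rw [hLg]; exact he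
    have e2 : (2 * D' + W + κ) * Lg = 2 * (D' * Lg) + W * Lg + κ * Lg := by ring
    rw [e2] at ht
    rw [hr]
    omega
  have hA0 := Ac_nonneg B δ F m s0
  have h1 := Tc_le B δ F Rich (Gd B c) κ c q hc0.le (by linarith) hq0 hq1.le hR (fun θ h => h) m s0 θ r
  have h2 := Uc_le B δ F Rich (Gd B c) κ c q C hc0.le (by linarith) hq0 hC0 (by rw [hq]) hR hG.step m s0 θ
  have h3 := Nc_le B δ F Rich (Gd B c) κ ρ hρ.le m s0 θ r
  have hN0 := Nc_nonneg B δ F Rich (Gd B c) κ m s0 θ r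
  have h4 : Zc B δ F Rich ρ m s0 ≤ C ^ 2 * ((m : ℝ) + 1) ^ k * Ac B δ F m s0 := by
    refine (hG.zc m).trans ?_
    have e1 := hG.low m (by omega)
    calc C * ((m : ℝ) + 1) ^ k * ρ ^ m ≤ C * ((m : ℝ) + 1) ^ k * (C * Ac B δ F m s0) := mul_le_mul_of_nonneg_left e1 (by positivity)
      _ = _ := by ring
  have h5 : ρ ^ r * Nc B δ F Rich (Gd B c) κ m s0 θ r ≤ C ^ 2 * ((m : ℝ) + 1) ^ k * Ac B δ F m s0 := by
    have e1 : ρ ^ (2 * r) * Nc B δ F Rich (Gd B c) κ m s0 θ r ≤ ρ ^ r * (C ^ 2 * ((m : ℝ) + 1) ^ k * Ac B δ F m s0) := by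
      refine le_trans ?_ (h3.trans (mul_le_mul_of_nonneg_left h4 (by positivity)))
      exact mul_le_mul_of_nonneg_right (pow_le_pow_right₀ hρ.le hgc2) hN0
    rw [two_mul, pow_add, mul_assoc] at e1
    exact le_of_mul_le_mul_left e1 (by positivity)
  have h6 : Nc B δ F Rich (Gd B c) κ m s0 θ r ≤ l ^ r * (C ^ 2 * ((m : ℝ) + 1) ^ k * Ac B δ F m s0) := by
    have e1 : Nc B δ F Rich (Gd B c) κ m s0 θ r ≤ (1 / ρ) ^ r * (C ^ 2 * ((m : ℝ) + 1) ^ k * Ac B δ F m s0) := by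
      rw [one_div, inv_pow, inv_mul_eq_div, le_div_iff₀ (by positivity), mul_comm]
      exact h5
    refine e1.trans (mul_le_mul_of_nonneg_right (pow_le_pow_left₀ (by positivity) hlρ r) (by positivity))
  have h7 : q ^ r * Uc B δ F Rich (Gd B c) κ c q m s0 θ ≤ l ^ r * Ac B δ F m s0 :=
    mul_le_mul (pow_le_pow_left₀ hq0.le hlq r) h2 (Uc_nonneg B δ F Rich (Gd B c) κ c q (by linarith) hq0 hR m s0 θ) (by positivity)
  have h8 : ‖Tc B δ F m s0 θ‖ ≤ l ^ r * (1 + C ^ 2 * ((m : ℝ) + 1) ^ k) * Ac B δ F m s0 := by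
    have : l ^ r * (1 + C ^ 2 * ((m : ℝ) + 1) ^ k) * Ac B δ F m s0 = l ^ r * Ac B δ F m s0 + l ^ r * (C ^ 2 * ((m : ℝ) + 1) ^ k * Ac B δ F m s0) := by ring
    linarith
  rw [← hθ]
  refine h8.trans (mul_le_mul_of_nonneg_right ?_ hA0)
  have hK1 : 1 ≤ K := by omega
  have hKr : (1 : ℝ) ≤ K := by exact_mod_cast hK1
  have h9 : l ^ r ≤ 1 / (K : ℝ) ^ (V + (k + 1)) := by
    rw [hr, hLg]
    exact pow_log_le B hB l hl0.le _ D' hD'.le K hK1
  have h10 : 1 + C ^ 2 * ((m : ℝ) + 1) ^ k ≤ (K : ℝ) ^ (k + 1) := by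
    refine le_trans ?_ (hk1 K (by omega))
    have e1 : (m : ℝ) ≤ K := by exact_mod_cast (by omega : m ≤ K)
    have e2 : ((m : ℝ) + 1) ^ k ≤ ((K : ℝ) + 1) ^ k := pow_le_pow_left₀ (by positivity) (by linarith) k
    have e3 : C ^ 2 * ((m : ℝ) + 1) ^ k ≤ C ^ 2 * ((K : ℝ) + 1) ^ k := mul_le_mul_of_nonneg_left e2 (by positivity)
    linarith
  calc l ^ r * (1 + C ^ 2 * ((m : ℝ) + 1) ^ k) ≤ 1 / (K : ℝ) ^ (V + (k + 1)) * (K : ℝ) ^ (k + 1) :=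
        mul_le_mul h9 h10 (by positivity) (by positivity)
    _ = 1 / (K : ℝ) ^ V := by
        rw [pow_add]
        field_simp


open Classical in
/-- the law of the elements of an automatic set, the same measure for all constants and all numbers of additional digits -/
theorem au_lawW [Fintype σ] (b : ℕ) (hb : 2 ≤ b) (M : DFA ℕ σ)
    (hS : ∀ k : ℕ, ∃ᶠ N : ℕ in Filter.atTop, Real.log N ^ k < (((range N).filter fun v => Nat.digits b v ∈ M.accepts).card : ℝ))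
    (κκ : ℤ) : ∃ (B : ℕ) (C : ℝ), 2 ≤ B ∧ 0 ≤ C ∧
    ∀ W V : ℕ, ∃ D N₀ : ℕ, ∀ N, N₀ ≤ N → ∃ (n : ℕ) (Ω : Finset ℕ) (p : ℕ → ℝ),
      B ^ n ≤ N ∧ N < B ^ (n + 1) ∧
      (∀ e : ℕ, e ≤ W * (Nat.log B (n + 1 + e) + 1) → ∀ cc : ℤ,
        Law B (B.factorial * κκ.natAbs) D V (n + 1 + e) Ω p (fun v : ℕ => cc + κκ * v)) ∧
      (∀ v ∈ Ω, v < B ^ (n + 1)) ∧ (∀ v ∈ Ω, 0 ≤ p v) ∧
      ∑ v ∈ Ω, p v = 1 ∧
      (∀ v, v < N → Nat.digits b v ∈ M.accepts →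
        v ∈ Ω ∧ 1 ≤ C * (((range N).filter fun v => Nat.digits b v ∈ M.accepts).card : ℝ) * p v) := by
  obtain ⟨B, δ, F, s0, κ, C, ρ, k, hB2, hρ, hG, hrun⟩ := setup b hb M hS
  have hC1 := hG.C1
  have hC0 : 0 < C := by linarith
  refine ⟨B, C, hB2, hC0.le, fun W V => ?_⟩
  obtain ⟨D, m0, hchar⟩ := char_boundW B hB2 δ F s0 (R1 B δ) κ C ρ k hG hρ (fun s hs => hs) κκ W V
  refine ⟨D, B ^ (m0 + κ + 1), fun N hN => ?_⟩
  obtain ⟨n, hn⟩ : ∃ n, n = Nat.log B N := ⟨_, rfl⟩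
  have hpB : 0 < B ^ (m0 + κ + 1) := by positivity
  have hn1 : m0 + κ + 1 ≤ n := by
    rw [hn]
    exact (Nat.le_log_iff_pow_le (by omega) (by omega)).2 hN
  have hN1 : B ^ n ≤ N := by rw [hn]; exact Nat.pow_log_le_self B (by omega)
  have hN2 : N < B ^ (n + 1) := by rw [hn]; exact Nat.lt_pow_succ_log_self (by omega) N
  have hpos : 0 < Ac B δ F (n + 1) s0 := by
    have hlow := hG.low (n + 1) (by omega)
    have h2 : 0 < ρ ^ (n + 1) := by positivity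
    by_contra hcon
    push Not at hcon
    have h3 : C * Ac B δ F (n + 1) s0 ≤ 0 := mul_nonpos_of_nonneg_of_nonpos (by linarith) hcon
    linarith
  have hcard : (((range (B ^ (n + 1))).filter (fun v => F (run B δ (n + 1) s0 v))).card : ℝ) = Ac B δ F (n + 1) s0 := by
    rw [Ac_eq B (by omega), ← sum_filter, sum_const, nsmul_eq_mul, mul_one]
  refine ⟨n, (range (B ^ (n + 1))).filter (fun v => F (run B δ (n + 1) s0 v)), fun _ => 1 / Ac B δ F (n + 1) s0, hN1, hN2, ?_, ?_, ?_, ?_, ?_⟩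
  · intro e he cc
    exact law_of B hB2 δ F s0 κκ V D (n + 1 + e) (n + 1) hpos (hchar (n + 1) (by omega) e (n + 1 + e) rfl he) cc
  · intro v hv
    rw [mem_filter, mem_range] at hv
    exact hv.1
  · intro v _
    positivity
  · rw [sum_const, nsmul_eq_mul, hcard, mul_one_div, div_self hpos.ne']
  · intro v hv hvM
    have hv2 : v < B ^ (n + 1) := hv.trans hN2
    refine ⟨mem_filter.2 ⟨mem_range.2 hv2, (hrun (n + 1) v hv2).2 hvM⟩, ?_⟩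
    have h3 := hG.step n (by omega) s0
    have h4 : Ac B δ F n s0 ≤ (((range N).filter fun v => Nat.digits b v ∈ M.accepts).card : ℝ) := by
      have e1 : Ac B δ F n s0 = (((range (B ^ n)).filter fun v => Nat.digits b v ∈ M.accepts).card : ℝ) := by
        rw [Ac_eq B (by omega), ← sum_filter, sum_const, nsmul_eq_mul, mul_one]
        congr 2
        apply filter_congr
        intro v hv
        exact hrun n v (mem_range.1 hv)
      rw [e1]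
      exact_mod_cast card_le_card (filter_subset_filter _ (range_mono hN1))
    have h6 : Ac B δ F (n + 1) s0 ≤ C * (((range N).filter fun v => Nat.digits b v ∈ M.accepts).card : ℝ) :=
      h3.trans (mul_le_mul_of_nonneg_left h4 hC0.le)
    rw [mul_one_div, le_div_iff₀ hpos, one_mul]
    exact h6

end Pool.Agent.Q26.TA
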