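import Pool.Agent.Y958.RM.Cor
import Pool.Agent.Y958.RM.Any
import Pool.Agent.Y454.RM.Lash
import Pool.Agent.Q26.TA.TA2

set_option autoImplicit false

/-! The variance of the primes for all moduli in short windows around random integers. -/

namespace Pool.Agent.Q26.TA
open Finset
open Pool.Agent.H373R2.T7
open Pool.Agent.W93.DG
open Pool.Agent.W93.AU (Law)
open Pool.Agent.Y885
open Pool.Agent.Y958.RM
open Pool.Agent.TH894.PV (G)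

/-- `Q` is a bad modulus at the scale `b ^ k` -/
def BadM (ε : ℝ) (κ b k : ℕ) (Q : ℤ) : Prop := (b : ℤ) ^ k ≤ Q * (k : ℤ) ^ κ ∧ ∃ x : ℝ, (Q : ℝ) ≤ x ∧ x ≤ Q * (k : ℝ) ^ κ ∧
      ¬ |G x Q.toNat - x * Real.log Q| ≤ ε * (x * Real.log Q)

open Classical in
/-- all moduli in the windows around a random integer -/
theorem win_main (κ U A b E : ℕ) (hb : 2 ≤ b) (hE : 1 ≤ E) : ∃ V : ℕ, ∀ (ε : ℝ), 0 < ε → ε ≤ 1 → ∀ c : ℕ, ∃ k₀ : ℕ, ∀ k : ℕ, k₀ ≤ k →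
    ∀ (ι : Type) (Ω : Finset ι) (p : ι → ℝ) (Y : ι → ℤ), (∀ ω ∈ Ω, 0 ≤ p ω) → ∑ ω ∈ Ω, p ω = 1 →
    (∀ h : ℕ, 1 ≤ h → Nat.log b h ≤ eH b (2 * (κ + 1)) k → TLaw b E c V (k + eH b (2 * (κ + 1)) k) Ω p (fun ω => (h : ℤ) * Y ω)) →
    (∀ ω ∈ Ω, |Y ω| + (k : ℤ) ^ A ≤ (b : ℤ) ^ k) →
    ∀ bad : ι → Prop, (∀ ω ∈ Ω, bad ω → ∃ Q : ℤ, |Q - Y ω| ≤ (k : ℤ) ^ A ∧ BadM ε κ b k Q) →
    ∑ ω ∈ Ω, (if bad ω then p ω else 0) ≤ 1 / (k : ℝ) ^ U := by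
  obtain ⟨V, hV⟩ := main Pool.Agent.Y958.RM.cor κ (U + A + 2) b E hb hE
  refine ⟨V, fun ε hε hε1 c => ?_⟩
  obtain ⟨k0, h0⟩ := hV ε hε hε1 c
  refine ⟨k0 + 3, fun k hk ι Ω p Y hp0 hp1 hlaw hY bad hbad => ?_⟩
  have hk0 : (0 : ℝ) < k := by exact_mod_cast (by omega : 0 < k)
  have hk3 : (3 : ℝ) ≤ k := by exact_mod_cast (by omega : 3 ≤ k)
  obtain ⟨R, hR⟩ : ∃ R : ℕ, R = k ^ A := ⟨_, rfl⟩
  have hRz : ((R : ℕ) : ℤ) = (k : ℤ) ^ A := by rw [hR]; push_cast; rfl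
  have hRr : ((R : ℕ) : ℝ) = (k : ℝ) ^ A := by rw [hR]; push_cast; rfl
  have hj : ∀ j ∈ Icc (-(R : ℤ)) R, ∑ ω ∈ Ω, (if BadM ε κ b k (Y ω + j) then p ω else 0) ≤ 1 / (k : ℝ) ^ (U + A + 2) := by
    intro j hj
    rw [mem_Icc] at hj
    refine h0 k (by omega) ι Ω p (fun ω => Y ω + j) hp1 (fun h hh1 hh2 => ?_) (fun ω hω => ?_) (fun ω => BadM ε κ b k (Y ω + j)) _
      (fun ω hω hbω => hbω)
    · have h1 := (hlaw h hh1 hh2).add ((h : ℤ) * j)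
      have h2 : (fun ω => (h : ℤ) * (Y ω + j)) = (fun ω => (h : ℤ) * Y ω + (h : ℤ) * j) := by
        funext ω
        ring
      rw [h2]
      exact h1
    · have h1 := hY ω hω
      have h2 := abs_add_le (Y ω) j
      have h3 : |j| ≤ (R : ℤ) := abs_le.2 hj
      rw [hRz] at h3
      linarith
  have hpt : ∀ ω ∈ Ω, (if bad ω then p ω else 0) ≤ ∑ j ∈ Icc (-(R : ℤ)) R, (if BadM ε κ b k (Y ω + j) then p ω else 0) := by
    intro ω hω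
    have hnn : ∀ j ∈ Icc (-(R : ℤ)) R, (0 : ℝ) ≤ (if BadM ε κ b k (Y ω + j) then p ω else 0) := by
      intro j _
      split_ifs
      · exact hp0 ω hω
      · exact le_rfl
    split_ifs with hb'
    · obtain ⟨Q, hQ1, hQ2⟩ := hbad ω hω hb'
      rw [← hRz] at hQ1
      have h1 : (if BadM ε κ b k (Y ω + (Q - Y ω)) then p ω else 0) = p ω := by
        rw [if_pos]
        rw [add_sub_cancel]
        exact hQ2
      refine h1.symm.le.trans ?_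
      exact single_le_sum (f := fun j => (if BadM ε κ b k (Y ω + j) then p ω else 0)) hnn (mem_Icc.2 (abs_le.1 hQ1))
    · exact sum_nonneg hnn
  calc ∑ ω ∈ Ω, (if bad ω then p ω else 0) ≤ ∑ ω ∈ Ω, ∑ j ∈ Icc (-(R : ℤ)) R, (if BadM ε κ b k (Y ω + j) then p ω else 0) := sum_le_sum hpt
    _ = ∑ j ∈ Icc (-(R : ℤ)) R, ∑ ω ∈ Ω, (if BadM ε κ b k (Y ω + j) then p ω else 0) := sum_comm
    _ ≤ ∑ _j ∈ Icc (-(R : ℤ)) R, 1 / (k : ℝ) ^ (U + A + 2) := sum_le_sum hj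
    _ = (2 * (k : ℝ) ^ A + 1) * (1 / (k : ℝ) ^ (U + A + 2)) := by
        rw [sum_const, Int.card_Icc, nsmul_eq_mul]
        have e1 : ((R : ℤ) + 1 - -(R : ℤ)).toNat = 2 * R + 1 := by omega
        rw [e1]
        push_cast
        rw [hRr]
    _ ≤ (3 * (k : ℝ) ^ A) * (1 / (k : ℝ) ^ (U + A + 2)) := by
        apply mul_le_mul_of_nonneg_right _ (by positivity)
        have : (1 : ℝ) ≤ (k : ℝ) ^ A := one_le_pow₀ (by linarith)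
        linarith
    _ ≤ 1 / (k : ℝ) ^ U := by
        rw [mul_one_div, div_le_div_iff₀ (by positivity) (by positivity), one_mul, pow_add, pow_add, sq]
        have h1 : (0 : ℝ) < (k : ℝ) ^ U * (k : ℝ) ^ A := by positivity
        have h2 : (3 : ℝ) ≤ (k : ℝ) * k := by nlinarith
        calc 3 * (k : ℝ) ^ A * (k : ℝ) ^ U = 3 * ((k : ℝ) ^ U * (k : ℝ) ^ A) := by ring
          _ ≤ ((k : ℝ) * k) * ((k : ℝ) ^ U * (k : ℝ) ^ A) := mul_le_mul_of_nonneg_right h2 h1.le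
          _ = _ := by ring

end Pool.Agent.Q26.TA
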