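import Pool.Agent.Q26.TA.TA3

set_option autoImplicit false

/-! The variance of the primes for all moduli in short windows: automatic sets, and few elements of arbitrary sets. -/

namespace Pool.Agent.Q26.TA
open Finset
open Pool.Agent.H373R2.T7
open Pool.Agent.W93.DG
open Pool.Agent.W93.AU (Law)
open Pool.Agent.Y885
open Pool.Agent.Y958.RM
open Pool.Agent.TH894.PV (G)

/-- `|G(x, Q) - x log Q| ≤ ε x log Q` for all real `x` with `Q ≤ x ≤ Q (log N) ^ κ` -/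
def GoodM (ε : ℝ) (κ N Q : ℕ) : Prop :=
  ∀ x : ℝ, (Q : ℝ) ≤ x → x ≤ Q * Real.log N ^ κ → |G x Q - x * Real.log Q| ≤ ε * (x * Real.log Q)

lemma log_pow_le (b H k : ℕ) (hb : 2 ≤ b) : Nat.log b (k ^ H) ≤ H * (Nat.log b k + 1) := by
  rcases Nat.eq_zero_or_pos H with rfl | hH
  · simp
  rcases Nat.eq_zero_or_pos k with rfl | hk
  · rw [Nat.zero_pow hH]
    simp
  have h1 : k ^ H ≤ b ^ (H * (Nat.log b k + 1)) := by
    rw [mul_comm, pow_mul]
    exact Nat.pow_le_pow_left (Nat.lt_pow_succ_log_self (by omega) k).le H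
  calc Nat.log b (k ^ H) ≤ Nat.log b (b ^ (H * (Nat.log b k + 1))) := Nat.log_mono_right h1
    _ = _ := Nat.log_pow (by omega) _

open Classical in
theorem au_win {σ : Type} [Finite σ] (b : ℕ) (hb : 2 ≤ b) (M : DFA ℕ σ)
    (hS : ∀ k : ℕ, ∃ᶠ N : ℕ in Filter.atTop, Real.log N ^ k < (((range N).filter fun v => Nat.digits b v ∈ M.accepts).card : ℝ))
    (κκ : ℤ) (hκκ : κκ ≠ 0) (Bc κ A U : ℕ) (ε : ℝ) (hε : 0 < ε) (hε1 : ε ≤ 1) : ∃ N₀ : ℕ, ∀ N, N₀ ≤ N → ∀ cc : ℤ, |cc| ≤ (Bc : ℤ) * N →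
      (((range N).filter fun v => Nat.digits b v ∈ M.accepts ∧ ∃ Q : ℕ, |((Q : ℤ) : ℝ) - ((cc + κκ * v : ℤ) : ℝ)| ≤ Real.log N ^ A ∧
        (N : ℝ) ≤ Q * Real.log N ^ κ ∧ ¬ GoodM ε κ N Q).card : ℝ) ≤
      (((range N).filter fun v => Nat.digits b v ∈ M.accepts).card : ℝ) / Real.log N ^ U := by
  have := Fintype.ofFinite σ
  obtain ⟨B, C, hB2, hC0, hau⟩ := au_lawW b hb M hS κκ
  obtain ⟨κ', hκ'⟩ : ∃ κ', κ' = 2 * κ + 1 := ⟨_, rfl⟩
  obtain ⟨H, hH⟩ : ∃ H, H = 2 * (κ' + 1) := ⟨_, rfl⟩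
  obtain ⟨V, hV⟩ := win_main κ' (2 * U + 1) (2 * A) B 20 hB2 (by norm_num)
  rw [← hH] at hV
  obtain ⟨e0, he0⟩ : ∃ e0 : ℕ, Bc + κκ.natAbs + 1 ≤ B ^ e0 := ⟨Bc + κκ.natAbs + 1, (Nat.lt_pow_self (by omega)).le⟩
  obtain ⟨D, N1, h1⟩ := hau (e0 + 2 + H) V
  obtain ⟨c, K0, h2⟩ := law_tlaw B D (H + 5) hB2
  obtain ⟨k0, h3⟩ := hV ε hε hε1 c
  obtain ⟨k4, h4⟩ := pow_two_ev (4 * A)
  obtain ⟨C', hC'⟩ := exists_nat_ge C
  obtain ⟨m, hm⟩ : ∃ m, m = K0 + k0 + k4 + C' + B ^ (1 + e0) + B.factorial * κκ.natAbs + e0 + 5 := ⟨_, rfl⟩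
  refine ⟨N1 + B ^ (m + 1), fun N hN cc hcc => ?_⟩
  obtain ⟨n, Ω, p, hn1, hn2, hl, hΩ, hp0, hp1, hmem⟩ := h1 N (by omega)
  have hpB : 0 < B ^ (m + 1) := Nat.pow_pos (by omega)
  have hmn : m < n + 1 := by
    have e1 : B ^ (m + 1) < B ^ (n + 1) := lt_of_le_of_lt (by omega) hn2
    have := (Nat.pow_lt_pow_iff_right (by omega : 1 < B)).1 e1
    omega
  obtain ⟨k, hk⟩ : ∃ k, k = n + 1 + e0 := ⟨_, rfl⟩
  have hBe0 : B ≤ B ^ (1 + e0) := by
    calc B = B ^ 1 := (pow_one B).symm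
      _ ≤ _ := Nat.pow_le_pow_right (by omega) (by omega)
  have hkB : B ≤ k := by omega
  have hkB2 : B ^ (1 + e0) ≤ k := by omega
  have hk1 : 1 ≤ k := by omega
  have hkr : (1 : ℝ) ≤ k := by exact_mod_cast hk1
  have hk0 : (0 : ℝ) < k := by linarith
  have hNn : 0 < N := by omega
  have hN0 : (0 : ℝ) < N := by exact_mod_cast hNn
  have hF1 : 1 ≤ B.factorial * κκ.natAbs := Nat.mul_pos B.factorial_pos (Int.natAbs_pos.2 hκκ)
  -- logarithms
  obtain ⟨L, hL⟩ : ∃ L, L = Real.log (N : ℝ) := ⟨_, rfl⟩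
  rw [← hL]
  have hL0 : 0 ≤ L := by rw [hL]; exact Real.log_natCast_nonneg _
  have hLk : L ≤ (k : ℝ) ^ 2 := by
    have e1 : L ≤ Real.log ((B ^ (n + 1) : ℕ) : ℝ) := by rw [hL]; exact Real.log_le_log hN0 (by exact_mod_cast hn2.le)
    have e2 := (logX B (n + 1) hB2).2
    have e3 : (B : ℝ) ≤ k := by exact_mod_cast hkB
    have e4 : ((n + 1 : ℕ) : ℝ) ≤ k := by exact_mod_cast (by omega : n + 1 ≤ k)
    have e5 : (0 : ℝ) ≤ ((n + 1 : ℕ) : ℝ) := Nat.cast_nonneg _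
    rw [sq]
    calc L ≤ B * ((n + 1 : ℕ) : ℝ) := e1.trans e2
      _ ≤ k * k := mul_le_mul e3 e4 e5 hk0.le
  have hL1 : 1 ≤ L := by
    have e1 : Real.log ((B ^ n : ℕ) : ℝ) ≤ L := by
      rw [hL]
      apply Real.log_le_log (by exact_mod_cast Nat.pow_pos (by omega)) (by exact_mod_cast hn1)
    have e2 := (logX B n hB2).1
    have e3 : (2 : ℝ) ≤ n := by exact_mod_cast (by omega : 2 ≤ n)
    linarith
  have hLp : ∀ j : ℕ, L ^ j ≤ (k : ℝ) ^ (2 * j) := fun j => by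
    rw [pow_mul]; exact pow_le_pow_left₀ hL0 hLk j
  -- the bad event
  obtain ⟨bad, hbad⟩ : ∃ bad : ℕ → Prop, bad = fun v : ℕ => ∃ Q : ℕ, |((Q : ℤ) : ℝ) - ((cc + κκ * v : ℤ) : ℝ)| ≤ L ^ A ∧
        (N : ℝ) ≤ Q * L ^ κ ∧ ¬ GoodM ε κ N Q := ⟨_, rfl⟩
  have hbadv : ∀ v : ℕ, bad v ↔ ∃ Q : ℕ, |((Q : ℤ) : ℝ) - ((cc + κκ * v : ℤ) : ℝ)| ≤ L ^ A ∧
        (N : ℝ) ≤ Q * L ^ κ ∧ ¬ GoodM ε κ N Q := fun v => by rw [hbad]
  have hp := h3 k (by omega) ℕ Ω p (fun v : ℕ => cc + κκ * v) hp0 hp1 (by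
    intro h hh1 hh2
    obtain ⟨e, he⟩ : ∃ e, e = e0 + eH B H k := ⟨_, rfl⟩
    have hK : k + eH B H k = n + 1 + e := by omega
    rw [hK]
    have hlog : e ≤ (e0 + 2 + H) * (Nat.log B (n + 1 + e) + 1) := by
      have e1 := log_pow_le B H k hB2
      have e2 : Nat.log B k ≤ Nat.log B (n + 1 + e) := Nat.log_mono_right (by omega)
      have e3 : eH B H k = Nat.log B (k ^ H) + 2 := rfl
      have e4 : H * (Nat.log B k + 1) ≤ H * (Nat.log B (n + 1 + e) + 1) := Nat.mul_le_mul_left _ (by omega)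
      have e5 : (e0 + 2) * 1 ≤ (e0 + 2) * (Nat.log B (n + 1 + e) + 1) := Nat.mul_le_mul_left _ (by omega)
      have e6 : (e0 + 2 + H) * (Nat.log B (n + 1 + e) + 1) = (e0 + 2) * (Nat.log B (n + 1 + e) + 1) + H * (Nat.log B (n + 1 + e) + 1) := by ring
      rw [e6]
      omega
    refine h2 (n + 1 + e) (by omega) (B.factorial * κκ.natAbs) V h hF1 hh1 ?_ ℕ Ω p _ (hl e hlog cc)
    have e1 : h < B ^ (eH B H k + 1) := by
      have := Nat.lt_pow_succ_log_self (by omega : 1 < B) h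
      exact this.trans_le (Nat.pow_le_pow_right (by omega) (by omega))
    have e2 : B ^ (eH B H k + 1) ≤ k ^ (H + 3) := by
      have e3 : eH B H k + 1 = Nat.log B (k ^ H) + 3 := rfl
      rw [e3, pow_add, pow_add]
      exact Nat.mul_le_mul (Nat.pow_log_le_self B (pow_ne_zero _ (by omega))) (Nat.pow_le_pow_left hkB 3)
    calc 2 * (B.factorial * κκ.natAbs * h) ≤ k * (k * k ^ (H + 3)) :=
          Nat.mul_le_mul (by omega) (Nat.mul_le_mul (by omega) (e1.le.trans e2))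
      _ = k ^ (H + 5) := by ring
      _ ≤ (n + 1 + e) ^ (H + 5) := Nat.pow_le_pow_left (by omega) _) (by
    intro v hv
    have hv2 := hΩ v hv
    have e1 : |cc + κκ * (v : ℤ)| ≤ (Bc : ℤ) * N + (κκ.natAbs : ℤ) * v := by
      refine (abs_add_le _ _).trans ?_
      rw [abs_mul, Int.abs_eq_natAbs κκ, Nat.abs_cast]
      linarith
    have e2 : k ^ (2 * A) ≤ B ^ (n + 1) := by
      have a1 : k ≤ (n + 1) ^ 2 := by nlinarith
      calc k ^ (2 * A) ≤ ((n + 1) ^ 2) ^ (2 * A) := Nat.pow_le_pow_left a1 _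
        _ = (n + 1) ^ (4 * A) := by rw [← pow_mul]; congr 1; ring
        _ ≤ 2 ^ (n + 1) := h4 (n + 1) (by omega)
        _ ≤ B ^ (n + 1) := Nat.pow_le_pow_left hB2 _
    have e3 : (Bc + κκ.natAbs + 1) * B ^ (n + 1) ≤ B ^ k := by
      rw [hk, pow_add B (n + 1) e0, mul_comm (B ^ (n + 1))]
      exact Nat.mul_le_mul_right _ he0
    have e4 : Bc * N + κκ.natAbs * v + k ^ (2 * A) ≤ B ^ k := by
      refine le_trans ?_ e3
      have a1 : Bc * N ≤ Bc * B ^ (n + 1) := Nat.mul_le_mul_left _ hn2.le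
      have a2 : κκ.natAbs * v ≤ κκ.natAbs * B ^ (n + 1) := Nat.mul_le_mul_left _ hv2.le
      calc Bc * N + κκ.natAbs * v + k ^ (2 * A) ≤ Bc * B ^ (n + 1) + κκ.natAbs * B ^ (n + 1) + B ^ (n + 1) :=
            add_le_add (add_le_add a1 a2) e2
        _ = _ := by ring
    have e5 : (Bc : ℤ) * N + (κκ.natAbs : ℤ) * v + (k : ℤ) ^ (2 * A) ≤ (B : ℤ) ^ k := by exact_mod_cast e4
    linarith) bad (by
    intro v hv hb'
    rw [hbadv] at hb'
    obtain ⟨Q, hQ1, hQ2, hQ3⟩ := hb'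
    refine ⟨(Q : ℤ), ?_, ?_, ?_⟩
    · have e1 := hQ1.trans (hLp A)
      exact_mod_cast e1
    · have e1 : (B ^ k : ℕ) ≤ B ^ (1 + e0) * N := by
        rw [hk, show n + 1 + e0 = (1 + e0) + n by ring, pow_add B (1 + e0) n]
        exact Nat.mul_le_mul_left _ hn1
      have e2 : ((B ^ k : ℕ) : ℝ) ≤ (Q : ℝ) * (k : ℝ) ^ κ' := by
        have a1 : ((B ^ k : ℕ) : ℝ) ≤ ((B ^ (1 + e0) : ℕ) : ℝ) * N := by exact_mod_cast e1
        have a2 : ((B ^ (1 + e0) : ℕ) : ℝ) ≤ k := by exact_mod_cast hkB2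
        have a3 : (0 : ℝ) ≤ Q := Nat.cast_nonneg _
        calc ((B ^ k : ℕ) : ℝ) ≤ ((B ^ (1 + e0) : ℕ) : ℝ) * N := a1
          _ ≤ k * (Q * (k : ℝ) ^ (2 * κ)) := mul_le_mul a2 (hQ2.trans (mul_le_mul_of_nonneg_left (hLp κ) a3)) hN0.le hk0.le
          _ = (Q : ℝ) * (k : ℝ) ^ κ' := by rw [hκ', pow_succ]; ring
      exact_mod_cast e2
    · unfold GoodM at hQ3
      push Not at hQ3
      obtain ⟨x, x1, x2, x3⟩ := hQ3
      rw [← hL] at x2
      refine ⟨x, by exact_mod_cast x1, ?_, ?_⟩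
      · refine x2.trans ?_
        rw [Int.cast_natCast]
        apply mul_le_mul_of_nonneg_left _ (Nat.cast_nonneg _)
        exact (hLp κ).trans (pow_le_pow_right₀ hkr (by omega))
      · rw [Int.toNat_natCast, Int.cast_natCast]
        exact not_le.2 x3)
  -- the count
  obtain ⟨Ac, hAc⟩ : ∃ Ac : Finset ℕ, Ac = (range N).filter fun v => Nat.digits b v ∈ M.accepts := ⟨_, rfl⟩
  rw [← hAc] at hmem ⊢
  have hset : ((range N).filter fun v => Nat.digits b v ∈ M.accepts ∧ ∃ Q : ℕ, |((Q : ℤ) : ℝ) - ((cc + κκ * v : ℤ) : ℝ)| ≤ L ^ A ∧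
        (N : ℝ) ≤ Q * L ^ κ ∧ ¬ GoodM ε κ N Q) = Ac.filter bad := by
    rw [hAc, filter_filter]
    apply filter_congr
    intro v _
    rw [hbadv]
  rw [hset]
  have hAc0 : (0 : ℝ) ≤ Ac.card := Nat.cast_nonneg _
  have h7 : (((Ac.filter bad).card : ℕ) : ℝ) ≤ (C * (Ac.card : ℝ)) * ∑ v ∈ Ω, (if bad v then p v else 0) := by
    calc (((Ac.filter bad).card : ℕ) : ℝ) = ∑ v ∈ Ac.filter bad, (1 : ℝ) := by rw [sum_const, nsmul_eq_mul, mul_one]
      _ ≤ ∑ v ∈ Ac.filter bad, (C * (Ac.card : ℝ)) * (if bad v then p v else 0) := by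
          apply sum_le_sum
          intro v hv
          rw [mem_filter] at hv
          rw [if_pos hv.2]
          have hv1 := hv.1
          rw [hAc, mem_filter, mem_range] at hv1
          exact (hmem v hv1.1 hv1.2).2
      _ ≤ ∑ v ∈ Ω, (C * (Ac.card : ℝ)) * (if bad v then p v else 0) := by
          apply sum_le_sum_of_subset_of_nonneg
          · intro v hv
            have hv1 := (mem_filter.1 hv).1
            rw [hAc, mem_filter, mem_range] at hv1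
            exact (hmem v hv1.1 hv1.2).1
          · intro v hv _
            apply mul_nonneg (mul_nonneg hC0 hAc0)
            split_ifs
            · exact hp0 v hv
            · exact le_rfl
      _ = _ := by rw [mul_sum]
  refine h7.trans ?_
  have h8 : (C * (Ac.card : ℝ)) * ∑ v ∈ Ω, (if bad v then p v else 0) ≤ (C * (Ac.card : ℝ)) * (1 / (k : ℝ) ^ (2 * U + 1)) :=
    mul_le_mul_of_nonneg_left hp (mul_nonneg hC0 hAc0)
  refine h8.trans ?_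
  rw [mul_one_div, div_le_div_iff₀ (by positivity) (by positivity)]
  have h9 : C ≤ k := hC'.trans (by exact_mod_cast (by omega : C' ≤ k))
  calc C * (Ac.card : ℝ) * L ^ U ≤ k * (Ac.card : ℝ) * (k : ℝ) ^ (2 * U) :=
        mul_le_mul (mul_le_mul_of_nonneg_right h9 hAc0) (hLp U) (by positivity) (by positivity)
    _ = _ := by rw [pow_succ]; ring

/-- few elements of an arbitrary set: all moduli in a window -/
theorem las_win (l κ A : ℕ) (hl : 2 ≤ l) : ∃ C : ℝ, ∀ ε : ℝ, 0 < ε → ε ≤ 1 → ∃ N₀ : ℕ, ∀ T : Set ℕ,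
    (∀ x : ℕ, 1 ≤ x → ∃ a ∈ T, x ≤ a ∧ a ≤ l * x) → ∀ N : ℕ, N₀ ≤ N →
    ∃ S : Finset ℕ, (∀ a ∈ S, a ∈ T) ∧ (S.card : ℝ) ≤ C * Real.log (Real.log N) ^ 2 ∧ 2 * ∑ a ∈ S, a ≤ N ∧
      ∀ Q : ℕ, |(Q : ℝ) - ((N : ℝ) - ((∑ a ∈ S, a : ℕ) : ℝ))| ≤ Real.log N ^ A → GoodM ε κ N Q := by
  classical
  obtain ⟨b, hb⟩ : ∃ b, b = 4 * l := ⟨_, rfl⟩
  obtain ⟨κ', hκ'⟩ : ∃ κ', κ' = 2 * κ + 1 := ⟨_, rfl⟩
  obtain ⟨H, hH⟩ : ∃ H, H = 2 * (κ' + 1) := ⟨_, rfl⟩
  obtain ⟨V, hV⟩ := win_main κ' 1 (2 * A) b 20 (by omega) (by norm_num)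
  rw [← hH] at hV
  obtain ⟨C, hC⟩ := Pool.Agent.Y454.RM.t_LASH l hl V
  refine ⟨C, fun ε hε hε1 => ?_⟩
  obtain ⟨c, N1, hc⟩ := hC (8 * H + 3)
  rw [← hb] at hc
  obtain ⟨k0, h0⟩ := hV ε hε hε1 c
  obtain ⟨N2, h2⟩ := any_num b (2 * H) (by omega)
  obtain ⟨k4, h4⟩ := pow_two_ev (4 * A)
  obtain ⟨N5, h5⟩ := ev_L' 3
  obtain ⟨N6, h6⟩ := ev_log' A 4
  obtain ⟨m, hm⟩ : ∃ m, m = k0 + k4 + 4 * b ^ 2 + 4 := ⟨_, rfl⟩
  refine ⟨N1 + N2 + b ^ (m + 1) + N5 + N6 + 1, fun T hT N hN => ?_⟩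
  obtain ⟨f1, f2, f3⟩ := h2 N (by omega)
  have f5 := h5 N (by omega)
  have f6 := h6 N (by omega)
  obtain ⟨L, hL⟩ : ∃ L, L = Real.log (N : ℝ) := ⟨_, rfl⟩
  rw [← hL] at f1 f3 f5 f6 ⊢
  obtain ⟨k, hk⟩ : ∃ k, k = Nat.log b N + 1 := ⟨_, rfl⟩
  rw [← hk] at f1 f2 f3
  have hN0 : N ≠ 0 := by omega
  have hNr : (0 : ℝ) < N := by exact_mod_cast Nat.pos_of_ne_zero hN0
  have hmk : m + 1 ≤ k := by
    have : m + 1 ≤ Nat.log b N := Nat.le_log_of_pow_le (by omega) (by omega)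
    omega
  have hNk : N < b ^ k := by rw [hk]; exact Nat.lt_pow_succ_log_self (by omega) _
  have hNk2 : b ^ k ≤ b * N := by
    rw [hk, pow_succ']
    exact Nat.mul_le_mul_left _ (Nat.pow_log_le_self b hN0)
  have hk0 : (0 : ℝ) < k := by exact_mod_cast (by omega : 0 < k)
  have hkr : (1 : ℝ) ≤ k := by exact_mod_cast (by omega : 1 ≤ k)
  have hL0 : 0 ≤ L := by linarith
  have hloglog : 1 ≤ Real.log L := by
    rw [Real.le_log_iff_exp_le (by linarith)]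
    have := Real.exp_one_lt_d9
    linarith
  have hLp : ∀ j : ℕ, L ^ j ≤ ((k + 1 : ℕ) : ℝ) ^ (2 * j) := fun j => by
    rw [pow_mul]
    refine (pow_le_pow_left₀ hL0 f3 j).trans ?_
    apply pow_le_pow_left₀ (by positivity)
    apply pow_le_pow_left₀ hk0.le
    push_cast
    linarith
  have hLN : L ^ A ≤ N / 4 := by
    have e1 : √(N : ℝ) ≤ N := by
      rw [Real.sqrt_le_left hNr.le]
      have : (1 : ℝ) ≤ N := by exact_mod_cast (by omega : 1 ≤ N)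
      nlinarith
    linarith
  have hek : ((eH b H (k + 1) + 1 : ℕ) : ℝ) ≤ ((8 * H + 3 : ℕ) : ℝ) * Real.log L := by
    have e1 : eH b H (k + 1) ≤ eH b (2 * H) k := by
      unfold eH
      apply Nat.add_le_add_right
      apply Nat.log_mono_right
      rw [pow_mul]
      apply Nat.pow_le_pow_left
      nlinarith
    have e2 : ((eH b H (k + 1) : ℕ) : ℝ) ≤ ((eH b (2 * H) k : ℕ) : ℝ) := by exact_mod_cast e1
    push_cast at f1 ⊢
    push_cast at e2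
    linarith
  obtain ⟨S, s1, s2, s3, s4⟩ := hc T hT N (by omega) (eH b H (k + 1) + 1) (by rw [← hL]; exact hek)
    (fun Q' : ℤ => ∀ Q : ℕ, |(Q : ℝ) - (Q' : ℝ)| ≤ L ^ A → GoodM ε κ N Q) (by
    intro ι Ω p Y hp hlaw hY bad hdec hbad
    rw [← hk] at hlaw
    have hKK : k + (eH b H (k + 1) + 1) = (k + 1) + eH b H (k + 1) := by omega
    rw [hKK] at hlaw
    have hp0 : ∀ ω ∈ Ω, 0 ≤ p ω := (hlaw 1 le_rfl (by simp)).nonneg
    have hfin := h0 (k + 1) (by omega) ι Ω p Y hp0 hp (fun h hh1 hh2 => hlaw h hh1 (by omega)) (fun ω hω => ?_) bad (fun ω hω hbω => ?_)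
    · have e1 : (∑ ω ∈ Ω, if bad ω then p ω else 0) ≤ 1 / ((k + 1 : ℕ) : ℝ) ^ 1 := by
        refine le_trans (le_of_eq ?_) hfin
        apply sum_congr rfl
        intro ω _
        split_ifs <;> rfl
      refine e1.trans ?_
      rw [pow_one]
      apply one_div_le_one_div_of_le (by norm_num)
      exact_mod_cast (by omega : 2 ≤ k + 1)
    · obtain ⟨y1, y2⟩ := hY ω hω
      have e0 : (0 : ℤ) ≤ N := Int.natCast_nonneg _
      have e1 : |Y ω| ≤ N := by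
        rw [abs_le]
        constructor <;> linarith
      have e2 : N + (k + 1) ^ (2 * A) ≤ b ^ (k + 1) := by
        have a1 : (k + 1) ^ (2 * A) ≤ b ^ k := by
          calc (k + 1) ^ (2 * A) ≤ (k ^ 2) ^ (2 * A) := Nat.pow_le_pow_left (by nlinarith) _
            _ = k ^ (4 * A) := by rw [← pow_mul]; congr 1; ring
            _ ≤ 2 ^ k := h4 k (by omega)
            _ ≤ b ^ k := Nat.pow_le_pow_left (by omega) _
        calc N + (k + 1) ^ (2 * A) ≤ b ^ k + b ^ k := add_le_add hNk.le a1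
          _ = b ^ k * 2 := by ring
          _ ≤ b ^ k * b := Nat.mul_le_mul_left _ (by omega)
          _ = _ := by rw [pow_succ]
      have e3 : (N : ℤ) + ((k + 1 : ℕ) : ℤ) ^ (2 * A) ≤ (b : ℤ) ^ (k + 1) := by exact_mod_cast e2
      linarith
    · obtain ⟨y1, y2⟩ := hY ω hω
      have hb' := hbad ω hω hbω
      push Not at hb'
      obtain ⟨Q, q1, q2⟩ := hb'
      have hY1 : (N : ℝ) ≤ 2 * (Y ω : ℝ) := by exact_mod_cast y1
      have hQ4 : (N : ℝ) ≤ 4 * Q := by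
        have := (abs_le.1 (q1.trans hLN)).1
        linarith
      refine ⟨(Q : ℤ), ?_, ?_, ?_⟩
      · have e1 := q1.trans (hLp A)
        exact_mod_cast e1
      · have e1 : b ^ (k + 1) ≤ b ^ 2 * N := by
          rw [pow_succ, mul_comm, pow_two, mul_assoc]
          exact Nat.mul_le_mul_left _ hNk2
        have e2 : N ≤ 4 * Q := by exact_mod_cast hQ4
        have e3 : b ^ 2 * N ≤ Q * (k + 1) ^ κ' := by
          calc b ^ 2 * N ≤ b ^ 2 * (4 * Q) := Nat.mul_le_mul_left _ e2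
            _ = Q * (4 * b ^ 2) := by ring
            _ ≤ Q * (k + 1) ^ κ' := by
              apply Nat.mul_le_mul_left
              calc 4 * b ^ 2 ≤ k + 1 := by omega
                _ = (k + 1) ^ 1 := (pow_one _).symm
                _ ≤ _ := Nat.pow_le_pow_right (by omega) (by omega)
        exact_mod_cast e1.trans e3
      · unfold GoodM at q2
        push Not at q2
        obtain ⟨x, x1, x2, x3⟩ := q2
        rw [← hL] at x2
        refine ⟨x, by exact_mod_cast x1, ?_, ?_⟩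
        · refine x2.trans ?_
          rw [Int.cast_natCast]
          apply mul_le_mul_of_nonneg_left _ (Nat.cast_nonneg _)
          exact (hLp κ).trans (pow_le_pow_right₀ (by exact_mod_cast (by omega : 1 ≤ k + 1)) (by omega))
        · rw [Int.toNat_natCast, Int.cast_natCast]
          exact not_le.2 x3)
  rw [← hL] at s2
  refine ⟨S, s1, s2, s3, fun Q hQ => ?_⟩
  apply s4 Q
  push_cast at hQ ⊢
  exact hQ

end Pool.Agent.Q26.TA
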